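import Pool.Agent.Helper74.RN.St

/-!
# Project RN, module SUB: sublists
-/

set_option autoImplicit false

namespace Pool.Agent.Helper8.RN

open Pool.Agent.Helper74 Pool.Agent.Helper74.RN
open Pool.Agent.Helper74.NM (NC)

theorem hSUB (hINS : StINS) (hFZR : StFZR) : Pool.Agent.Helper74.RN.StSUB := by
  intro G R l' l hsub hNC
  have claim : ∀ (a b : List G), a.Sublist b → ∀ (p : List G) (k : ℕ), Fo R (p ++ a) k →
      ∃ j, j + a.length = b.length ∧ Fo R (p ++ b) (k + j) := by
    intro a b h
    induction h with
    | slnil =>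
      intro p k hk
      exact ⟨0, rfl, hk⟩
    | @cons a b x h ih =>
      intro p k hk
      obtain ⟨j, hj, hF⟩ := ih p k hk
      refine ⟨j + 1, ?_, ?_⟩
      · rw [List.length_cons]
        omega
      · exact hINS G R p b x (k + j) hF
    | @cons_cons a b x h ih =>
      intro p k hk
      have h1 : Fo R ((p ++ [x]) ++ a) k := by
        rw [List.append_assoc]
        exact hk
      obtain ⟨j, hj, hF⟩ := ih (p ++ [x]) k h1
      refine ⟨j, ?_, ?_⟩
      · rw [List.length_cons, List.length_cons]
        omega
      · rw [List.append_assoc] at hF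
        exact hF
  obtain ⟨j, hj, hF⟩ := claim l' l hsub [] 0 ((hFZR G R l').2 hNC)
  refine ⟨j, hj, ?_⟩
  rw [Nat.zero_add] at hF
  exact hF

end Pool.Agent.Helper8.RN
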